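import Pool.Agent.H458.BM.Sur

/-!
# The adelic points which lift to a `2 ^ n`-covering, if `J(K)` is uniquely divisible by two
-/

set_option autoImplicit false
set_option linter.all false

open Polynomial IsDedekindDomain NumberField WithZero
open scoped Classical nonZeroDivisors

namespace Pool.Agent.H458.BM

open Pool.Agent.Y160.SE
open Pool.Agent.TH115.GD (incl rs ak exists_restrict)
open Pool.Agent.N106.JB (ad mu ad_mapJ ACoc ACob ATriv)
open Pool.Agent.N874.Jac (J mapJ Gal Cochain Cocycle Coboundary CoordRing TrivialAtPrimes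
  TrivialAtReals ShaTwoTrivialReal power UniquelyTwoDivisible)

section fix

variable {K : Type} [Field K] {F : K[X]}

theorem div_pow2 {A : Type} [AddCommGroup A] (h : ∀ x : A, ∃ y : A, 2 • y = x) (n : ℕ) (x : A) :
    ∃ y : A, 2 ^ n • y = x := by
  induction n generalizing x with
  | zero => exact ⟨x, by simp⟩
  | succ n ih =>
    obtain ⟨y, hy⟩ := ih x
    obtain ⟨z, hz⟩ := h y
    refine ⟨z, ?_⟩
    rw [pow_succ, mul_smul, hz, hy]

/-- The coboundaries which are killed by `2 ^ n` are coboundaries of elements killed by `2 ^ n`. -/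
theorem cob_tors2 (h2 : (2 : K) ≠ 0) (hm : F.Monic) (hs : F.Separable) (ho : Odd F.natDegree)
    (hJ : ∀ x : Jac 2 F K, ∃ y : Jac 2 F K, 2 • y = x)
    {c : (SeparableClosure K ≃ₐ[K] SeparableClosure K) → Jac 2 F (SeparableClosure K)}
    (hc : ACob c) (n : ℕ) (hn : ∀ σ, 2 ^ n • c σ = 0) :
    ∃ R : Jac 2 F (SeparableClosure K), 2 ^ n • R = 0 ∧ ∀ σ, c σ = jm 2 F (ak σ) R - R := by
  have H := hyps
  have hg := Pool.Agent.N106.JB.good2 h2 hm hs ho
  obtain ⟨R, hR⟩ := hc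
  obtain ⟨Q, hQ⟩ := fixed_class (E := K) H hg (2 ^ n • R) fun τ => by
    have e1 : (rs K τ : SeparableClosure K →ₐ[K] SeparableClosure K) = ak τ :=
      AlgHom.ext fun x => rfl
    have h3 := hn τ
    rw [hR τ, smul_sub, ← map_nsmul, sub_eq_zero] at h3
    rw [e1]
    exact h3
  obtain ⟨U, rfl⟩ := div_pow2 hJ n Q
  refine ⟨R - jm 2 F (incl K K (SeparableClosure K)) U, ?_, fun σ => ?_⟩
  · rw [smul_sub, ← map_nsmul, hQ, sub_self]
  · have e1 : (ak σ).comp (incl K K (SeparableClosure K)) = incl K K (SeparableClosure K) :=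
      AlgHom.ext fun x => σ.commutes x
    rw [map_sub, jm_jm, e1, hR σ]
    abel

/-- The local points are divisible by `2 ^ n`. -/
theorem surv_add2 (h2 : (2 : K) ≠ 0) (hm : F.Monic) (hs : F.Separable) (ho : Odd F.natDegree)
    (hJ : ∀ x : Jac 2 F K, ∃ y : Jac 2 F K, 2 • y = x)
    {c : (SeparableClosure K ≃ₐ[K] SeparableClosure K) → Jac 2 F (SeparableClosure K)}
    (hc : ACob c) (n : ℕ) (hn : ∀ σ, 2 ^ n • c σ = 0)
    (E : Type) [Field E] [Algebra K E] (ι : SeparableClosure K →ₐ[K] SeparableClosure E)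
    (Q : Jac 2 F (SeparableClosure E))
    (hQ : ∀ (τ : SeparableClosure E ≃ₐ[E] SeparableClosure E)
      (σ : SeparableClosure K ≃ₐ[K] SeparableClosure K), (∀ x, τ (ι x) = ι (σ x)) →
        jm 2 F ι (c σ) = jm 2 F (rs K τ) Q - Q)
    (q : Jac 2 F E) (hq : 2 ^ n • Q = jm 2 F (incl K E (SeparableClosure E)) q) :
    ∃ S : Jac 2 F E, 2 ^ n • S = q := by
  have H := hyps
  have hg := Pool.Agent.N106.JB.good2 h2 hm hs ho
  obtain ⟨R, hR1, hR2⟩ := cob_tors2 h2 hm hs ho hJ hc n hn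
  obtain ⟨S, hS⟩ := fixed_class (E := E) H hg (Q - jm 2 F ι R) fun τ => by
    obtain ⟨σ, hσ⟩ := exists_restrict (F := K) (L := E) ι τ
    have h3 := hQ τ σ hσ
    have e2 : (rs K τ).comp ι = ι.comp (ak σ) := AlgHom.ext fun x => hσ x
    rw [map_sub, jm_jm, e2, ← jm_jm]
    rw [hR2 σ, map_sub] at h3
    have h4 : jm 2 F (rs K τ) Q = jm 2 F ι (jm 2 F (ak σ) R) - jm 2 F ι R + Q := by
      rw [h3]; abel
    rw [h4]; abel
  refine ⟨S, injE hg E (SeparableClosure E) ?_⟩
  rw [map_nsmul, hS, smul_sub, ← map_nsmul, hR1, map_zero, sub_zero, hq]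

end fix

section loc

variable {K : Type} [Field K] {P : K[X]}

theorem lifts_power2 (h2 : (2 : K) ≠ 0) (hm : P.Monic) (hs : P.Separable) (ho : Odd P.natDegree)
    (hJ : UniquelyTwoDivisible P) {c : Cochain P} (hc : Coboundary c) (n : ℕ)
    (hn : ∀ σ, c σ ^ 2 ^ n = 1) {E : Type} [Field E] [Algebra K E] {z : Point P E}
    (h : LiftsTo E (2 ^ n) c z) : ClassIsPower (2 ^ n) z := by
  obtain ⟨q, h1, ι, R, h3, h4⟩ := h
  obtain ⟨S, hS⟩ := surv_add2 h2 hm hs ho (fun x => by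
      obtain ⟨y, hy⟩ := hJ.2 (mu x)
      exact ⟨ad (y : Pool.Agent.Y713.Jac.J 2 P K), congrArg (fun x : Pool.Agent.Y713.Jac.J 2 P K => ad x) hy⟩)
    (c := fun σ => ad (c σ : Pool.Agent.Y713.Jac.J 2 P (SeparableClosure K)))
    (Pool.Agent.N106.JB.acob_iff.1 hc) n (fun σ => hn σ) E ι (ad (R : Pool.Agent.Y713.Jac.J 2 P _))
    (fun τ σ hx => by
      have h5 := h4 τ σ hx
      have h6 : jm 2 P ι (ad (c σ : Pool.Agent.Y713.Jac.J 2 P (SeparableClosure K))) =
          ad (mapJ P ι (c σ) : Pool.Agent.Y713.Jac.J 2 P (SeparableClosure E)) :=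
        (ad_mapJ ι (c σ : Pool.Agent.Y713.Jac.J 2 P (SeparableClosure K))).symm
      have h7 : jm 2 P (rs K τ) (ad (R : Pool.Agent.Y713.Jac.J 2 P (SeparableClosure E))) =
          ad (mapJ P (τ.toAlgHom.restrictScalars K) R :
            Pool.Agent.Y713.Jac.J 2 P (SeparableClosure E)) :=
        (ad_mapJ (rs K τ) (R : Pool.Agent.Y713.Jac.J 2 P (SeparableClosure E))).symm
      rw [h6, h7]
      exact congrArg (fun x : Pool.Agent.Y713.Jac.J 2 P (SeparableClosure E) => ad x) h5)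
    (ad (q : Pool.Agent.Y713.Jac.J 2 P E)) (by
      have h7 : jm 2 P (incl K E (SeparableClosure E)) (ad (q : Pool.Agent.Y713.Jac.J 2 P E)) =
          ad (mapJ P (IsScalarTower.toAlgHom K E (SeparableClosure E)) q :
            Pool.Agent.Y713.Jac.J 2 P (SeparableClosure E)) :=
        (ad_mapJ (incl K E (SeparableClosure E)) (q : Pool.Agent.Y713.Jac.J 2 P E)).symm
      rw [h7]
      exact congrArg (fun x : Pool.Agent.Y713.Jac.J 2 P (SeparableClosure E) => ad x) h3)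
  exact ⟨q, mu S, h1, congrArg (fun x : Jac 2 P E => mu x) hS⟩

end loc

section glob

variable {K : Type} [Field K] {P : K[X]} {R : Type} [CommRing R] [IsDedekindDomain R] [Algebra R K]
  [IsFractionRing R K]

/-- **The adelic points which lift to a `2 ^ n`-covering**, if `J(K)` is uniquely divisible by two and
`Ш[2 ^ ∞] = 0`. -/
theorem survives_iff2 (h2 : (2 : K) ≠ 0) (hm : P.Monic) (hs : P.Separable) (ho : Odd P.natDegree)
    (hJ : UniquelyTwoDivisible P) (hS : ShaTwoTrivialReal P R) (n : ℕ) (z : AdelicPoint P R) :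
    Survives (2 ^ n) z ↔ ClassesArePowers (2 ^ n) z := by
  constructor
  · rintro ⟨c, hc, hn, hf, hr⟩
    have hcob : Coboundary c := by
      refine hS c n hc (fun w => ?_) (fun ρ => ?_) ?_
      · obtain ⟨q, h1, ι, R', h3, h4⟩ := hf w
        exact ⟨ι, R', h4⟩
      · letI := ρ.toAlgebra
        obtain ⟨q, h1, ι, R', h3, h4⟩ := hr ρ
        exact ⟨ι, R', h4⟩
      · refine ⟨1, fun σ => ?_⟩
        rw [_root_.map_one, div_one]
        exact hn σ
    refine ⟨fun w => lifts_power2 h2 hm hs ho hJ hcob n hn (hf w), fun ρ => ?_⟩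
    letI := ρ.toAlgebra
    exact lifts_power2 h2 hm hs ho hJ hcob n hn (hr ρ)
  · rintro ⟨hf, hr⟩
    refine ⟨1, ⟨?_, fun σ τ => ?_⟩, fun σ => one_pow _, fun w => power_lifts (hf w), fun ρ => ?_⟩
    · exact IsLocallyConstant.const 1
    · show (1 : J P (SeparableClosure K)) = 1 * mapJ P σ.toAlgHom 1
      rw [_root_.map_one, one_mul]
    · letI := ρ.toAlgebra
      exact power_lifts (hr ρ)

/-- Every `2 ^ n`-covering with adelic points is the trivial one. -/
theorem trivial_covering (h2 : (2 : K) ≠ 0) (hm : P.Monic) (hs : P.Separable) (ho : Odd P.natDegree)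
    (hJ : UniquelyTwoDivisible P) (hS : ShaTwoTrivialReal P R) (n : ℕ) (c : Cochain P)
    (hc : Cocycle c) (hn : KilledBy (2 ^ n) c) (z : AdelicPoint P R) (hz : LiftsToAt (2 ^ n) c z) :
    ∃ T : J P (SeparableClosure K), T ^ (2 ^ n) = 1 ∧ ∀ σ, c σ = mapJ P σ.toAlgHom T / T := by
  obtain ⟨hf, hr⟩ := hz
  have hcob : Coboundary c := by
    refine hS c n hc (fun w => ?_) (fun ρ => ?_) ?_
    · obtain ⟨q, h1, ι, R', h3, h4⟩ := hf w
      exact ⟨ι, R', h4⟩
    · letI := ρ.toAlgebra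
      obtain ⟨q, h1, ι, R', h3, h4⟩ := hr ρ
      exact ⟨ι, R', h4⟩
    · refine ⟨1, fun σ => ?_⟩
      rw [_root_.map_one, div_one]
      exact hn σ
  obtain ⟨T, hT1, hT2⟩ := cob_tors2 h2 hm hs ho (fun x => by
      obtain ⟨y, hy⟩ := hJ.2 (mu x)
      exact ⟨ad (y : Pool.Agent.Y713.Jac.J 2 P K), congrArg (fun x : Pool.Agent.Y713.Jac.J 2 P K => ad x) hy⟩)
    (c := fun σ => ad (c σ : Pool.Agent.Y713.Jac.J 2 P (SeparableClosure K)))
    (Pool.Agent.N106.JB.acob_iff.1 hcob) n (fun σ => hn σ)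
  refine ⟨mu T, congrArg (fun x : Jac 2 P (SeparableClosure K) => mu x) hT1, fun σ => ?_⟩
  have h5 := congrArg (fun x : Jac 2 P (SeparableClosure K) => mu x) (hT2 σ)
  have h6 : jm 2 P (ak σ) T = ad (mapJ P σ.toAlgHom (mu T) :
      Pool.Agent.Y713.Jac.J 2 P (SeparableClosure K)) :=
    (ad_mapJ (ak σ) (mu T : Pool.Agent.Y713.Jac.J 2 P (SeparableClosure K))).symm
  refine Eq.trans h5 ?_
  show mu (jm 2 P (ak σ) T - T) = _
  rw [h6]
  rfl

end glob

end Pool.Agent.H458.BM
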